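import Pool.Agent.helper12.GS.Pm

/-!
Generated: constants of the corner programs of the table Q68a.
-/

namespace Pool.Agent.helper12.K68

open Pool.Agent.helper31.IA (Z)
open Pool.Agent.helper12.GS

def p0 : Pm where
  ec := ⟨13589544960, 0, 0, 0⟩
  bc := ⟨0, 0, 0, 0⟩
  nn := ⟨1099511627776, 0, 0, 0⟩
  tj := ⟨4398046511104, 0, 0, 0⟩
  ca := ⟨1099511627776, 0, 0, 0⟩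
  cb := ⟨879662989312, 0, 0, 0⟩
  cc := ⟨0, 0, 0, 0⟩
  ax := ⟨0, 0, 0, 0⟩
  ay := ⟨0, 0, 0, 0⟩
  xa := ⟨0, 0, 0, 0⟩
  C2 := ⟨0, 0, 0, 0⟩
  wr := ⟨0, 1086089854976, 0, 0⟩
  wi := ⟨5872294035456, 0, 0, 0⟩
  w1 := ⟨0, 43946105372672, 0, 0⟩
  h000 := ⟨0, 5860577792, 0, 0⟩
  h001 := ⟨0, 5132607744, 0, 0⟩
  h002 := ⟨519325568, 0, 0, 0⟩
  h003 := ⟨20026993024, 0, 0, 0⟩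
  h010 := ⟨0, 1482749983104, 0, 0⟩
  h011 := ⟨611216923712, 0, 0, 0⟩
  h012 := ⟨0, 0, 0, 0⟩
  h020 := ⟨0, 11531067680896, 0, 0⟩
  h021 := ⟨0, 0, 0, 0⟩
  h030 := ⟨0, 0, 0, 0⟩
  h100 := ⟨0, 1499197376, 0, 0⟩
  h101 := ⟨0, 586344832, 0, 0⟩
  h102 := ⟨465989824, 0, 0, 0⟩
  h110 := ⟨0, 143301259648, 0, 0⟩
  h111 := ⟨0, 350696148288, 0, 0⟩
  h120 := ⟨0, 0, 0, 0⟩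
  h200 := ⟨0, 159055872, 0, 0⟩
  h201 := ⟨109856960, 0, 0, 0⟩
  h202 := ⟨466539584, 0, 0, 0⟩
  h210 := ⟨42295967168, 0, 0, 0⟩
  h211 := ⟨0, 0, 0, 0⟩
  h300 := ⟨199451136, 0, 0, 0⟩
  h301 := ⟨0, 45775936, 0, 0⟩
  h310 := ⟨0, 8537593024, 0, 0⟩
  h400 := ⟨0, 43028160, 0, 0⟩
  h401 := ⟨5737472, 0, 0, 0⟩
  h410 := ⟨0, 0, 0, 0⟩
  h500 := ⟨5821824, 0, 0, 0⟩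
  h501 := ⟨0, 0, 0, 0⟩
  h600 := ⟨0, 421504, 0, 0⟩
  h700 := ⟨15616, 0, 0, 0⟩
  h800 := ⟨0, 0, 0, 0⟩
  m000 := ⟨1095699333120, 0, 0, 0⟩
  m001 := ⟨0, 1778188288, 0, 0⟩
  m002 := ⟨6499663872, 0, 0, 0⟩
  m010 := ⟨240532717568, 0, 0, 0⟩
  m100 := ⟨8913354752, 0, 0, 0⟩
  m101 := ⟨127139840, 0, 0, 0⟩
  m110 := ⟨517945425920, 0, 0, 0⟩
  m200 := ⟨0, 526647296, 0, 0⟩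
  m300 := ⟨76939264, 0, 0, 0⟩
  a00 := ⟨111861891072, 0, 0, 0⟩
  a01 := ⟨245436776448, 0, 0, 0⟩
  a02 := ⟨0, 34831138816, 0, 0⟩
  a03 := ⟨0, 673359986688, 0, 0⟩
  a10 := ⟨1610718445568, 0, 0, 0⟩
  a11 := ⟨0, 747471765504, 0, 0⟩
  b00 := ⟨90749927424, 0, 0, 0⟩
  b01 := ⟨207454273536, 0, 0, 0⟩
  b02 := ⟨0, 528761028608, 0, 0⟩
  b03 := ⟨942008238080, 0, 0, 0⟩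
  b10 := ⟨976267116544, 0, 0, 0⟩
  b11 := ⟨0, 4036520837120, 0, 0⟩
  t00 := ⟨1317779603456, 0, 0, 0⟩
  t01 := ⟨0, 136187019264, 0, 0⟩
  t02 := ⟨7735616536576, 0, 0, 0⟩
  t03 := ⟨0, 26970656342016, 0, 0⟩
  t10 := ⟨27793404854272, 0, 0, 0⟩
  t11 := ⟨24159960891392, 0, 0, 0⟩
  s00 := ⟨1662559584256, 0, 0, 0⟩
  s01 := ⟨5005836288, 0, 0, 0⟩
  s02 := ⟨10044492218368, 0, 0, 0⟩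
  s03 := ⟨0, 24331573657600, 0, 0⟩
  s10 := ⟨2278447775744, 0, 0, 0⟩
  s11 := ⟨82994505973760, 0, 0, 0⟩
  g00 := ⟨121082684032, 0, 0, 0⟩
  g01 := ⟨0, 20558557056, 0, 0⟩
  g10 := ⟨11328124759168, 0, 0, 0⟩
  g11 := ⟨0, 0, 0, 0⟩
  f00 := ⟨51628047744, 0, 0, 0⟩
  f01 := ⟨307102560384, 0, 0, 0⟩
  f10 := ⟨22828861750784, 0, 0, 0⟩
  f11 := ⟨0, 0, 0, 0⟩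
  l000 := ⟨0, 0, 0, 0⟩
  l001 := ⟨0, 0, 0, 0⟩
  l002 := ⟨0, 0, 0, 0⟩
  l010 := ⟨0, 0, 0, 0⟩
  l011 := ⟨0, 0, 0, 0⟩
  l020 := ⟨0, 0, 0, 0⟩
  l100 := ⟨0, 0, 0, 0⟩
  l101 := ⟨0, 0, 0, 0⟩
  l102 := ⟨0, 0, 0, 0⟩
  l110 := ⟨0, 0, 0, 0⟩
  l111 := ⟨0, 0, 0, 0⟩
  l120 := ⟨0, 0, 0, 0⟩
  l200 := ⟨0, 0, 0, 0⟩
  l201 := ⟨0, 0, 0, 0⟩
  l210 := ⟨0, 0, 0, 0⟩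
  l300 := ⟨0, 0, 0, 0⟩
  l301 := ⟨0, 0, 0, 0⟩
  l310 := ⟨0, 0, 0, 0⟩
  l400 := ⟨0, 0, 0, 0⟩
  l401 := ⟨0, 0, 0, 0⟩
  l410 := ⟨0, 0, 0, 0⟩
  l500 := ⟨0, 0, 0, 0⟩
  l501 := ⟨0, 0, 0, 0⟩
  l510 := ⟨0, 0, 0, 0⟩
  l600 := ⟨0, 0, 0, 0⟩
  l700 := ⟨0, 0, 0, 0⟩
  l800 := ⟨0, 0, 0, 0⟩
  l900 := ⟨0, 0, 0, 0⟩
  l1000 := ⟨0, 0, 0, 0⟩
  l1100 := ⟨0, 0, 0, 0⟩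
  q00 := ⟨0, 0, 0, 0⟩
  q01 := ⟨0, 0, 0, 0⟩
  q02 := ⟨0, 0, 0, 0⟩
  q03 := ⟨0, 0, 0, 0⟩
  q10 := ⟨0, 0, 0, 0⟩
  q11 := ⟨0, 0, 0, 0⟩
  q12 := ⟨0, 0, 0, 0⟩
  q20 := ⟨0, 0, 0, 0⟩
  q21 := ⟨0, 0, 0, 0⟩
  q30 := ⟨0, 0, 0, 0⟩
  n000 := ⟨0, 0, 0, 0⟩
  n001 := ⟨0, 0, 0, 0⟩
  n002 := ⟨0, 0, 0, 0⟩
  n010 := ⟨0, 0, 0, 0⟩
  n011 := ⟨0, 0, 0, 0⟩
  n020 := ⟨0, 0, 0, 0⟩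
  n100 := ⟨0, 0, 0, 0⟩
  n101 := ⟨0, 0, 0, 0⟩
  n110 := ⟨0, 0, 0, 0⟩
  n200 := ⟨0, 0, 0, 0⟩
  n201 := ⟨0, 0, 0, 0⟩
  n210 := ⟨0, 0, 0, 0⟩
  n300 := ⟨0, 0, 0, 0⟩
  n400 := ⟨0, 0, 0, 0⟩
  n500 := ⟨0, 0, 0, 0⟩
  e00 := ⟨0, 0, 0, 0⟩
  e01 := ⟨0, 0, 0, 0⟩
  e02 := ⟨0, 0, 0, 0⟩
  e03 := ⟨0, 0, 0, 0⟩
  e10 := ⟨0, 0, 0, 0⟩
  e11 := ⟨0, 0, 0, 0⟩
  B1 := 0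

def p1 : Pm where
  ec := ⟨13589544960, 0, 0, 0⟩
  bc := ⟨0, 0, 0, 0⟩
  nn := ⟨2199023255552, 0, 0, 0⟩
  tj := ⟨6597069766656, 0, 0, 0⟩
  ca := ⟨879662989312, 0, 0, 0⟩
  cb := ⟨769604452352, 0, 0, 0⟩
  cc := ⟨0, 0, 0, 0⟩
  ax := ⟨0, 0, 0, 0⟩
  ay := ⟨0, 0, 0, 0⟩
  xa := ⟨0, 0, 0, 0⟩
  C2 := ⟨0, 0, 0, 0⟩
  wr := ⟨0, 1086089854976, 0, 0⟩
  wi := ⟨5872294035456, 0, 0, 0⟩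
  w1 := ⟨0, 43946105372672, 0, 0⟩
  h000 := ⟨0, 5860577792, 0, 0⟩
  h001 := ⟨0, 5132607744, 0, 0⟩
  h002 := ⟨519325568, 0, 0, 0⟩
  h003 := ⟨20026993024, 0, 0, 0⟩
  h010 := ⟨0, 1482749983104, 0, 0⟩
  h011 := ⟨611216923712, 0, 0, 0⟩
  h012 := ⟨0, 0, 0, 0⟩
  h020 := ⟨0, 11531067680896, 0, 0⟩
  h021 := ⟨0, 0, 0, 0⟩
  h030 := ⟨0, 0, 0, 0⟩
  h100 := ⟨0, 1499197376, 0, 0⟩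
  h101 := ⟨0, 586344832, 0, 0⟩
  h102 := ⟨465989824, 0, 0, 0⟩
  h110 := ⟨0, 143301259648, 0, 0⟩
  h111 := ⟨0, 350696148288, 0, 0⟩
  h120 := ⟨0, 0, 0, 0⟩
  h200 := ⟨0, 159055872, 0, 0⟩
  h201 := ⟨109856960, 0, 0, 0⟩
  h202 := ⟨466539584, 0, 0, 0⟩
  h210 := ⟨42295967168, 0, 0, 0⟩
  h211 := ⟨0, 0, 0, 0⟩
  h300 := ⟨199451136, 0, 0, 0⟩
  h301 := ⟨0, 45775936, 0, 0⟩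
  h310 := ⟨0, 8537593024, 0, 0⟩
  h400 := ⟨0, 43028160, 0, 0⟩
  h401 := ⟨5737472, 0, 0, 0⟩
  h410 := ⟨0, 0, 0, 0⟩
  h500 := ⟨5821824, 0, 0, 0⟩
  h501 := ⟨0, 0, 0, 0⟩
  h600 := ⟨0, 421504, 0, 0⟩
  h700 := ⟨15616, 0, 0, 0⟩
  h800 := ⟨0, 0, 0, 0⟩
  m000 := ⟨1096176959488, 0, 0, 0⟩
  m001 := ⟨0, 1309409280, 0, 0⟩
  m002 := ⟨4203741184, 0, 0, 0⟩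
  m010 := ⟨215939219456, 0, 0, 0⟩
  m100 := ⟨8689811456, 0, 0, 0⟩
  m101 := ⟨174063616, 0, 0, 0⟩
  m110 := ⟨518623133696, 0, 0, 0⟩
  m200 := ⟨0, 479789056, 0, 0⟩
  m300 := ⟨69468160, 0, 0, 0⟩
  a00 := ⟨90749927424, 0, 0, 0⟩
  a01 := ⟨207454273536, 0, 0, 0⟩
  a02 := ⟨0, 528761028608, 0, 0⟩
  a03 := ⟨942008238080, 0, 0, 0⟩
  a10 := ⟨976267116544, 0, 0, 0⟩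
  a11 := ⟨0, 4036520837120, 0, 0⟩
  b00 := ⟨78547779584, 0, 0, 0⟩
  b01 := ⟨182219309056, 0, 0, 0⟩
  b02 := ⟨0, 770446589952, 0, 0⟩
  b03 := ⟨1756520185856, 0, 0, 0⟩
  b10 := ⟨439496802304, 0, 0, 0⟩
  b11 := ⟨0, 6109676175360, 0, 0⟩
  t00 := ⟨1068967854080, 0, 0, 0⟩
  t01 := ⟨358629965824, 0, 0, 0⟩
  t02 := ⟨324512972800, 0, 0, 0⟩
  t03 := ⟨0, 4895055478784, 0, 0⟩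
  t10 := ⟨18584871239680, 0, 0, 0⟩
  t11 := ⟨0, 5322435854336, 0, 0⟩
  s00 := ⟨2980339187712, 0, 0, 0⟩
  s01 := ⟨0, 131181182976, 0, 0⟩
  s02 := ⟨17780108754944, 0, 0, 0⟩
  s03 := ⟨0, 51302229999616, 0, 0⟩
  s10 := ⟨30071852630016, 0, 0, 0⟩
  s11 := ⟨107154466865152, 0, 0, 0⟩
  g00 := ⟨121082684032, 0, 0, 0⟩
  g01 := ⟨0, 20558557056, 0, 0⟩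
  g10 := ⟨11328124759168, 0, 0, 0⟩
  g11 := ⟨0, 0, 0, 0⟩
  f00 := ⟨51628047744, 0, 0, 0⟩
  f01 := ⟨307102560384, 0, 0, 0⟩
  f10 := ⟨22828861750784, 0, 0, 0⟩
  f11 := ⟨0, 0, 0, 0⟩
  l000 := ⟨0, 0, 0, 0⟩
  l001 := ⟨0, 0, 0, 0⟩
  l002 := ⟨0, 0, 0, 0⟩
  l010 := ⟨0, 0, 0, 0⟩
  l011 := ⟨0, 0, 0, 0⟩
  l020 := ⟨0, 0, 0, 0⟩
  l100 := ⟨0, 0, 0, 0⟩
  l101 := ⟨0, 0, 0, 0⟩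
  l102 := ⟨0, 0, 0, 0⟩
  l110 := ⟨0, 0, 0, 0⟩
  l111 := ⟨0, 0, 0, 0⟩
  l120 := ⟨0, 0, 0, 0⟩
  l200 := ⟨0, 0, 0, 0⟩
  l201 := ⟨0, 0, 0, 0⟩
  l210 := ⟨0, 0, 0, 0⟩
  l300 := ⟨0, 0, 0, 0⟩
  l301 := ⟨0, 0, 0, 0⟩
  l310 := ⟨0, 0, 0, 0⟩
  l400 := ⟨0, 0, 0, 0⟩
  l401 := ⟨0, 0, 0, 0⟩
  l410 := ⟨0, 0, 0, 0⟩
  l500 := ⟨0, 0, 0, 0⟩
  l501 := ⟨0, 0, 0, 0⟩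
  l510 := ⟨0, 0, 0, 0⟩
  l600 := ⟨0, 0, 0, 0⟩
  l700 := ⟨0, 0, 0, 0⟩
  l800 := ⟨0, 0, 0, 0⟩
  l900 := ⟨0, 0, 0, 0⟩
  l1000 := ⟨0, 0, 0, 0⟩
  l1100 := ⟨0, 0, 0, 0⟩
  q00 := ⟨0, 0, 0, 0⟩
  q01 := ⟨0, 0, 0, 0⟩
  q02 := ⟨0, 0, 0, 0⟩
  q03 := ⟨0, 0, 0, 0⟩
  q10 := ⟨0, 0, 0, 0⟩
  q11 := ⟨0, 0, 0, 0⟩
  q12 := ⟨0, 0, 0, 0⟩
  q20 := ⟨0, 0, 0, 0⟩
  q21 := ⟨0, 0, 0, 0⟩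
  q30 := ⟨0, 0, 0, 0⟩
  n000 := ⟨0, 0, 0, 0⟩
  n001 := ⟨0, 0, 0, 0⟩
  n002 := ⟨0, 0, 0, 0⟩
  n010 := ⟨0, 0, 0, 0⟩
  n011 := ⟨0, 0, 0, 0⟩
  n020 := ⟨0, 0, 0, 0⟩
  n100 := ⟨0, 0, 0, 0⟩
  n101 := ⟨0, 0, 0, 0⟩
  n110 := ⟨0, 0, 0, 0⟩
  n200 := ⟨0, 0, 0, 0⟩
  n201 := ⟨0, 0, 0, 0⟩
  n210 := ⟨0, 0, 0, 0⟩
  n300 := ⟨0, 0, 0, 0⟩
  n400 := ⟨0, 0, 0, 0⟩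
  n500 := ⟨0, 0, 0, 0⟩
  e00 := ⟨0, 0, 0, 0⟩
  e01 := ⟨0, 0, 0, 0⟩
  e02 := ⟨0, 0, 0, 0⟩
  e03 := ⟨0, 0, 0, 0⟩
  e10 := ⟨0, 0, 0, 0⟩
  e11 := ⟨0, 0, 0, 0⟩
  B1 := 0

def p2 : Pm where
  ec := ⟨13589544960, 0, 0, 0⟩
  bc := ⟨0, 0, 0, 0⟩
  nn := ⟨3298534883328, 0, 0, 0⟩
  tj := ⟨8796093022208, 0, 0, 0⟩
  ca := ⟨769604452352, 0, 0, 0⟩
  cb := ⟨659814350848, 0, 0, 0⟩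
  cc := ⟨0, 0, 0, 0⟩
  ax := ⟨0, 0, 0, 0⟩
  ay := ⟨0, 0, 0, 0⟩
  xa := ⟨0, 0, 0, 0⟩
  C2 := ⟨0, 0, 0, 0⟩
  wr := ⟨0, 1086089854976, 0, 0⟩
  wi := ⟨5872294035456, 0, 0, 0⟩
  w1 := ⟨0, 43946105372672, 0, 0⟩
  h000 := ⟨0, 5860577792, 0, 0⟩
  h001 := ⟨0, 5132607744, 0, 0⟩
  h002 := ⟨519325568, 0, 0, 0⟩
  h003 := ⟨20026993024, 0, 0, 0⟩
  h010 := ⟨0, 1482749983104, 0, 0⟩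
  h011 := ⟨611216923712, 0, 0, 0⟩
  h012 := ⟨0, 0, 0, 0⟩
  h020 := ⟨0, 11531067680896, 0, 0⟩
  h021 := ⟨0, 0, 0, 0⟩
  h030 := ⟨0, 0, 0, 0⟩
  h100 := ⟨0, 1499197376, 0, 0⟩
  h101 := ⟨0, 586344832, 0, 0⟩
  h102 := ⟨465989824, 0, 0, 0⟩
  h110 := ⟨0, 143301259648, 0, 0⟩
  h111 := ⟨0, 350696148288, 0, 0⟩
  h120 := ⟨0, 0, 0, 0⟩
  h200 := ⟨0, 159055872, 0, 0⟩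
  h201 := ⟨109856960, 0, 0, 0⟩
  h202 := ⟨466539584, 0, 0, 0⟩
  h210 := ⟨42295967168, 0, 0, 0⟩
  h211 := ⟨0, 0, 0, 0⟩
  h300 := ⟨199451136, 0, 0, 0⟩
  h301 := ⟨0, 45775936, 0, 0⟩
  h310 := ⟨0, 8537593024, 0, 0⟩
  h400 := ⟨0, 43028160, 0, 0⟩
  h401 := ⟨5737472, 0, 0, 0⟩
  h410 := ⟨0, 0, 0, 0⟩
  h500 := ⟨5821824, 0, 0, 0⟩
  h501 := ⟨0, 0, 0, 0⟩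
  h600 := ⟨0, 421504, 0, 0⟩
  h700 := ⟨15616, 0, 0, 0⟩
  h800 := ⟨0, 0, 0, 0⟩
  m000 := ⟨1096704720896, 0, 0, 0⟩
  m001 := ⟨0, 797769728, 0, 0⟩
  m002 := ⟨1802043392, 0, 0, 0⟩
  m010 := ⟨201748381696, 0, 0, 0⟩
  m100 := ⟨8443658240, 0, 0, 0⟩
  m101 := ⟨210829312, 0, 0, 0⟩
  m110 := ⟨521956556800, 0, 0, 0⟩
  m200 := ⟨0, 425984000, 0, 0⟩
  m300 := ⟨60948480, 0, 0, 0⟩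
  a00 := ⟨78547779584, 0, 0, 0⟩
  a01 := ⟨182219309056, 0, 0, 0⟩
  a02 := ⟨0, 770446589952, 0, 0⟩
  a03 := ⟨1756520185856, 0, 0, 0⟩
  a10 := ⟨439496802304, 0, 0, 0⟩
  a11 := ⟨0, 6109676175360, 0, 0⟩
  b00 := ⟨68448813056, 0, 0, 0⟩
  b01 := ⟨156825550848, 0, 0, 0⟩
  b02 := ⟨0, 875829067776, 0, 0⟩
  b03 := ⟨2168189878272, 0, 0, 0⟩
  b10 := ⟨9407954944, 0, 0, 0⟩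
  b11 := ⟨0, 7360159154176, 0, 0⟩
  t00 := ⟨925202776064, 0, 0, 0⟩
  t01 := ⟨417328201728, 0, 0, 0⟩
  t02 := ⟨0, 2344897085440, 0, 0⟩
  t03 := ⟨3844573888512, 0, 0, 0⟩
  t10 := ⟨11263624085504, 0, 0, 0⟩
  t11 := ⟨0, 26389683175424, 0, 0⟩
  s00 := ⟨4049307041792, 0, 0, 0⟩
  s01 := ⟨227448782848, 0, 0, 0⟩
  s02 := ⟨18104621727744, 0, 0, 0⟩
  s03 := ⟨0, 56197285478400, 0, 0⟩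
  s10 := ⟨48656723869696, 0, 0, 0⟩
  s11 := ⟨101832031010816, 0, 0, 0⟩
  g00 := ⟨121082684032, 0, 0, 0⟩
  g01 := ⟨0, 20558557056, 0, 0⟩
  g10 := ⟨11328124759168, 0, 0, 0⟩
  g11 := ⟨0, 0, 0, 0⟩
  f00 := ⟨51628047744, 0, 0, 0⟩
  f01 := ⟨307102560384, 0, 0, 0⟩
  f10 := ⟨22828861750784, 0, 0, 0⟩
  f11 := ⟨0, 0, 0, 0⟩
  l000 := ⟨0, 0, 0, 0⟩
  l001 := ⟨0, 0, 0, 0⟩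
  l002 := ⟨0, 0, 0, 0⟩
  l010 := ⟨0, 0, 0, 0⟩
  l011 := ⟨0, 0, 0, 0⟩
  l020 := ⟨0, 0, 0, 0⟩
  l100 := ⟨0, 0, 0, 0⟩
  l101 := ⟨0, 0, 0, 0⟩
  l102 := ⟨0, 0, 0, 0⟩
  l110 := ⟨0, 0, 0, 0⟩
  l111 := ⟨0, 0, 0, 0⟩
  l120 := ⟨0, 0, 0, 0⟩
  l200 := ⟨0, 0, 0, 0⟩
  l201 := ⟨0, 0, 0, 0⟩
  l210 := ⟨0, 0, 0, 0⟩
  l300 := ⟨0, 0, 0, 0⟩
  l301 := ⟨0, 0, 0, 0⟩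
  l310 := ⟨0, 0, 0, 0⟩
  l400 := ⟨0, 0, 0, 0⟩
  l401 := ⟨0, 0, 0, 0⟩
  l410 := ⟨0, 0, 0, 0⟩
  l500 := ⟨0, 0, 0, 0⟩
  l501 := ⟨0, 0, 0, 0⟩
  l510 := ⟨0, 0, 0, 0⟩
  l600 := ⟨0, 0, 0, 0⟩
  l700 := ⟨0, 0, 0, 0⟩
  l800 := ⟨0, 0, 0, 0⟩
  l900 := ⟨0, 0, 0, 0⟩
  l1000 := ⟨0, 0, 0, 0⟩
  l1100 := ⟨0, 0, 0, 0⟩
  q00 := ⟨0, 0, 0, 0⟩
  q01 := ⟨0, 0, 0, 0⟩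
  q02 := ⟨0, 0, 0, 0⟩
  q03 := ⟨0, 0, 0, 0⟩
  q10 := ⟨0, 0, 0, 0⟩
  q11 := ⟨0, 0, 0, 0⟩
  q12 := ⟨0, 0, 0, 0⟩
  q20 := ⟨0, 0, 0, 0⟩
  q21 := ⟨0, 0, 0, 0⟩
  q30 := ⟨0, 0, 0, 0⟩
  n000 := ⟨0, 0, 0, 0⟩
  n001 := ⟨0, 0, 0, 0⟩
  n002 := ⟨0, 0, 0, 0⟩
  n010 := ⟨0, 0, 0, 0⟩
  n011 := ⟨0, 0, 0, 0⟩
  n020 := ⟨0, 0, 0, 0⟩
  n100 := ⟨0, 0, 0, 0⟩
  n101 := ⟨0, 0, 0, 0⟩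
  n110 := ⟨0, 0, 0, 0⟩
  n200 := ⟨0, 0, 0, 0⟩
  n201 := ⟨0, 0, 0, 0⟩
  n210 := ⟨0, 0, 0, 0⟩
  n300 := ⟨0, 0, 0, 0⟩
  n400 := ⟨0, 0, 0, 0⟩
  n500 := ⟨0, 0, 0, 0⟩
  e00 := ⟨0, 0, 0, 0⟩
  e01 := ⟨0, 0, 0, 0⟩
  e02 := ⟨0, 0, 0, 0⟩
  e03 := ⟨0, 0, 0, 0⟩
  e10 := ⟨0, 0, 0, 0⟩
  e11 := ⟨0, 0, 0, 0⟩
  B1 := 0

def p3 : Pm where
  ec := ⟨13589544960, 0, 0, 0⟩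
  bc := ⟨0, 0, 0, 0⟩
  nn := ⟨4398046511104, 0, 0, 0⟩
  tj := ⟨10995116277760, 0, 0, 0⟩
  ca := ⟨659814350848, 0, 0, 0⟩
  cb := ⟨549755813888, 0, 0, 0⟩
  cc := ⟨0, 0, 0, 0⟩
  ax := ⟨0, 0, 0, 0⟩
  ay := ⟨0, 0, 0, 0⟩
  xa := ⟨0, 0, 0, 0⟩
  C2 := ⟨0, 0, 0, 0⟩
  wr := ⟨0, 1086089854976, 0, 0⟩
  wi := ⟨5872294035456, 0, 0, 0⟩
  w1 := ⟨0, 43946105372672, 0, 0⟩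
  h000 := ⟨0, 5860577792, 0, 0⟩
  h001 := ⟨0, 5132607744, 0, 0⟩
  h002 := ⟨519325568, 0, 0, 0⟩
  h003 := ⟨20026993024, 0, 0, 0⟩
  h010 := ⟨0, 1482749983104, 0, 0⟩
  h011 := ⟨611216923712, 0, 0, 0⟩
  h012 := ⟨0, 0, 0, 0⟩
  h020 := ⟨0, 11531067680896, 0, 0⟩
  h021 := ⟨0, 0, 0, 0⟩
  h030 := ⟨0, 0, 0, 0⟩
  h100 := ⟨0, 1499197376, 0, 0⟩
  h101 := ⟨0, 586344832, 0, 0⟩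
  h102 := ⟨465989824, 0, 0, 0⟩
  h110 := ⟨0, 143301259648, 0, 0⟩
  h111 := ⟨0, 350696148288, 0, 0⟩
  h120 := ⟨0, 0, 0, 0⟩
  h200 := ⟨0, 159055872, 0, 0⟩
  h201 := ⟨109856960, 0, 0, 0⟩
  h202 := ⟨466539584, 0, 0, 0⟩
  h210 := ⟨42295967168, 0, 0, 0⟩
  h211 := ⟨0, 0, 0, 0⟩
  h300 := ⟨199451136, 0, 0, 0⟩
  h301 := ⟨0, 45775936, 0, 0⟩
  h310 := ⟨0, 8537593024, 0, 0⟩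
  h400 := ⟨0, 43028160, 0, 0⟩
  h401 := ⟨5737472, 0, 0, 0⟩
  h410 := ⟨0, 0, 0, 0⟩
  h500 := ⟨5821824, 0, 0, 0⟩
  h501 := ⟨0, 0, 0, 0⟩
  h600 := ⟨0, 421504, 0, 0⟩
  h700 := ⟨15616, 0, 0, 0⟩
  h800 := ⟨0, 0, 0, 0⟩
  m000 := ⟨1097155084288, 0, 0, 0⟩
  m001 := ⟨0, 719257600, 0, 0⟩
  m002 := ⟨2083192832, 0, 0, 0⟩
  m010 := ⟨183848468480, 0, 0, 0⟩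
  m100 := ⟨8215330816, 0, 0, 0⟩
  m101 := ⟨274399232, 0, 0, 0⟩
  m110 := ⟨521810149376, 0, 0, 0⟩
  m200 := ⟨0, 376307712, 0, 0⟩
  m300 := ⟨52887552, 0, 0, 0⟩
  a00 := ⟨68448813056, 0, 0, 0⟩
  a01 := ⟨156825550848, 0, 0, 0⟩
  a02 := ⟨0, 875829067776, 0, 0⟩
  a03 := ⟨2168189878272, 0, 0, 0⟩
  a10 := ⟨9407954944, 0, 0, 0⟩
  a11 := ⟨0, 7360159154176, 0, 0⟩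
  b00 := ⟨59956854784, 0, 0, 0⟩
  b01 := ⟨116676100096, 0, 0, 0⟩
  b02 := ⟨0, 687945089024, 0, 0⟩
  b03 := ⟨1709333217280, 0, 0, 0⟩
  b10 := ⟨0, 292012949504, 0, 0⟩
  b11 := ⟨0, 7359077220352, 0, 0⟩
  t00 := ⟨806531825664, 0, 0, 0⟩
  t01 := ⟨472465932288, 0, 0, 0⟩
  t02 := ⟨0, 4266618454016, 0, 0⟩
  t03 := ⟨9908707655680, 0, 0, 0⟩
  t10 := ⟨5531186036736, 0, 0, 0⟩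
  t11 := ⟨0, 41544216805376, 0, 0⟩
  s00 := ⟨4974509817856, 0, 0, 0⟩
  s01 := ⟨644776984576, 0, 0, 0⟩
  s02 := ⟨15759724642304, 0, 0, 0⟩
  s03 := ⟨0, 52352711589888, 0, 0⟩
  s10 := ⟨59920347955200, 0, 0, 0⟩
  s11 := ⟨75442347835392, 0, 0, 0⟩
  g00 := ⟨121082684032, 0, 0, 0⟩
  g01 := ⟨0, 20558557056, 0, 0⟩
  g10 := ⟨11328124759168, 0, 0, 0⟩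
  g11 := ⟨0, 0, 0, 0⟩
  f00 := ⟨51628047744, 0, 0, 0⟩
  f01 := ⟨307102560384, 0, 0, 0⟩
  f10 := ⟨22828861750784, 0, 0, 0⟩
  f11 := ⟨0, 0, 0, 0⟩
  l000 := ⟨0, 0, 0, 0⟩
  l001 := ⟨0, 0, 0, 0⟩
  l002 := ⟨0, 0, 0, 0⟩
  l010 := ⟨0, 0, 0, 0⟩
  l011 := ⟨0, 0, 0, 0⟩
  l020 := ⟨0, 0, 0, 0⟩
  l100 := ⟨0, 0, 0, 0⟩
  l101 := ⟨0, 0, 0, 0⟩
  l102 := ⟨0, 0, 0, 0⟩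
  l110 := ⟨0, 0, 0, 0⟩
  l111 := ⟨0, 0, 0, 0⟩
  l120 := ⟨0, 0, 0, 0⟩
  l200 := ⟨0, 0, 0, 0⟩
  l201 := ⟨0, 0, 0, 0⟩
  l210 := ⟨0, 0, 0, 0⟩
  l300 := ⟨0, 0, 0, 0⟩
  l301 := ⟨0, 0, 0, 0⟩
  l310 := ⟨0, 0, 0, 0⟩
  l400 := ⟨0, 0, 0, 0⟩
  l401 := ⟨0, 0, 0, 0⟩
  l410 := ⟨0, 0, 0, 0⟩
  l500 := ⟨0, 0, 0, 0⟩
  l501 := ⟨0, 0, 0, 0⟩
  l510 := ⟨0, 0, 0, 0⟩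
  l600 := ⟨0, 0, 0, 0⟩
  l700 := ⟨0, 0, 0, 0⟩
  l800 := ⟨0, 0, 0, 0⟩
  l900 := ⟨0, 0, 0, 0⟩
  l1000 := ⟨0, 0, 0, 0⟩
  l1100 := ⟨0, 0, 0, 0⟩
  q00 := ⟨0, 0, 0, 0⟩
  q01 := ⟨0, 0, 0, 0⟩
  q02 := ⟨0, 0, 0, 0⟩
  q03 := ⟨0, 0, 0, 0⟩
  q10 := ⟨0, 0, 0, 0⟩
  q11 := ⟨0, 0, 0, 0⟩
  q12 := ⟨0, 0, 0, 0⟩
  q20 := ⟨0, 0, 0, 0⟩
  q21 := ⟨0, 0, 0, 0⟩
  q30 := ⟨0, 0, 0, 0⟩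
  n000 := ⟨0, 0, 0, 0⟩
  n001 := ⟨0, 0, 0, 0⟩
  n002 := ⟨0, 0, 0, 0⟩
  n010 := ⟨0, 0, 0, 0⟩
  n011 := ⟨0, 0, 0, 0⟩
  n020 := ⟨0, 0, 0, 0⟩
  n100 := ⟨0, 0, 0, 0⟩
  n101 := ⟨0, 0, 0, 0⟩
  n110 := ⟨0, 0, 0, 0⟩
  n200 := ⟨0, 0, 0, 0⟩
  n201 := ⟨0, 0, 0, 0⟩
  n210 := ⟨0, 0, 0, 0⟩
  n300 := ⟨0, 0, 0, 0⟩
  n400 := ⟨0, 0, 0, 0⟩
  n500 := ⟨0, 0, 0, 0⟩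
  e00 := ⟨0, 0, 0, 0⟩
  e01 := ⟨0, 0, 0, 0⟩
  e02 := ⟨0, 0, 0, 0⟩
  e03 := ⟨0, 0, 0, 0⟩
  e10 := ⟨0, 0, 0, 0⟩
  e11 := ⟨0, 0, 0, 0⟩
  B1 := 0

def p4 : Pm where
  ec := ⟨13589544960, 0, 0, 0⟩
  bc := ⟨0, 0, 0, 0⟩
  nn := ⟨5497558138880, 0, 0, 0⟩
  tj := ⟨13194139533312, 0, 0, 0⟩
  ca := ⟨549755813888, 0, 0, 0⟩
  cb := ⟨439697276928, 0, 0, 0⟩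
  cc := ⟨0, 0, 0, 0⟩
  ax := ⟨0, 0, 0, 0⟩
  ay := ⟨0, 0, 0, 0⟩
  xa := ⟨0, 0, 0, 0⟩
  C2 := ⟨0, 0, 0, 0⟩
  wr := ⟨0, 1086089854976, 0, 0⟩
  wi := ⟨5872294035456, 0, 0, 0⟩
  w1 := ⟨0, 43946105372672, 0, 0⟩
  h000 := ⟨0, 5860577792, 0, 0⟩
  h001 := ⟨0, 5132607744, 0, 0⟩
  h002 := ⟨519325568, 0, 0, 0⟩
  h003 := ⟨20026993024, 0, 0, 0⟩
  h010 := ⟨0, 1482749983104, 0, 0⟩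
  h011 := ⟨611216923712, 0, 0, 0⟩
  h012 := ⟨0, 0, 0, 0⟩
  h020 := ⟨0, 11531067680896, 0, 0⟩
  h021 := ⟨0, 0, 0, 0⟩
  h030 := ⟨0, 0, 0, 0⟩
  h100 := ⟨0, 1499197376, 0, 0⟩
  h101 := ⟨0, 586344832, 0, 0⟩
  h102 := ⟨465989824, 0, 0, 0⟩
  h110 := ⟨0, 143301259648, 0, 0⟩
  h111 := ⟨0, 350696148288, 0, 0⟩
  h120 := ⟨0, 0, 0, 0⟩
  h200 := ⟨0, 159055872, 0, 0⟩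
  h201 := ⟨109856960, 0, 0, 0⟩
  h202 := ⟨466539584, 0, 0, 0⟩
  h210 := ⟨42295967168, 0, 0, 0⟩
  h211 := ⟨0, 0, 0, 0⟩
  h300 := ⟨199451136, 0, 0, 0⟩
  h301 := ⟨0, 45775936, 0, 0⟩
  h310 := ⟨0, 8537593024, 0, 0⟩
  h400 := ⟨0, 43028160, 0, 0⟩
  h401 := ⟨5737472, 0, 0, 0⟩
  h410 := ⟨0, 0, 0, 0⟩
  h500 := ⟨5821824, 0, 0, 0⟩
  h501 := ⟨0, 0, 0, 0⟩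
  h600 := ⟨0, 421504, 0, 0⟩
  h700 := ⟨15616, 0, 0, 0⟩
  h800 := ⟨0, 0, 0, 0⟩
  m000 := ⟨1097466707968, 0, 0, 0⟩
  m001 := ⟨0, 152174592, 0, 0⟩
  m002 := ⟨505806848, 0, 0, 0⟩
  m010 := ⟨153195511808, 0, 0, 0⟩
  m100 := ⟨8042446848, 0, 0, 0⟩
  m101 := ⟨298319872, 0, 0, 0⟩
  m110 := ⟨527906635776, 0, 0, 0⟩
  m200 := ⟨0, 335806464, 0, 0⟩
  m300 := ⟨46268416, 0, 0, 0⟩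
  a00 := ⟨59956854784, 0, 0, 0⟩
  a01 := ⟨116676100096, 0, 0, 0⟩
  a02 := ⟨0, 687945089024, 0, 0⟩
  a03 := ⟨1709333217280, 0, 0, 0⟩
  a10 := ⟨0, 292012949504, 0, 0⟩
  a11 := ⟨0, 7359077220352, 0, 0⟩
  b00 := ⟨53059780608, 0, 0, 0⟩
  b01 := ⟨78897610752, 0, 0, 0⟩
  b02 := ⟨0, 505079660544, 0, 0⟩
  b03 := ⟨1291419123712, 0, 0, 0⟩
  b10 := ⟨0, 729532203008, 0, 0⟩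
  b11 := ⟨0, 6627546759168, 0, 0⟩
  t00 := ⟨706799468544, 0, 0, 0⟩
  t01 := ⟨319857819648, 0, 0, 0⟩
  t02 := ⟨0, 3276532350976, 0, 0⟩
  t03 := ⟨7599003271168, 0, 0, 0⟩
  t10 := ⟨1379415228416, 0, 0, 0⟩
  t11 := ⟨0, 45471859933184, 0, 0⟩
  s00 := ⟨5781041643520, 0, 0, 0⟩
  s01 := ⟨1117242916864, 0, 0, 0⟩
  s02 := ⟨11493106188288, 0, 0, 0⟩
  s03 := ⟨0, 42444003934208, 0, 0⟩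
  s10 := ⟨65451533991936, 0, 0, 0⟩
  s11 := ⟨33898131030016, 0, 0, 0⟩
  g00 := ⟨121082684032, 0, 0, 0⟩
  g01 := ⟨0, 20558557056, 0, 0⟩
  g10 := ⟨11328124759168, 0, 0, 0⟩
  g11 := ⟨0, 0, 0, 0⟩
  f00 := ⟨51628047744, 0, 0, 0⟩
  f01 := ⟨307102560384, 0, 0, 0⟩
  f10 := ⟨22828861750784, 0, 0, 0⟩
  f11 := ⟨0, 0, 0, 0⟩
  l000 := ⟨0, 0, 0, 0⟩
  l001 := ⟨0, 0, 0, 0⟩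
  l002 := ⟨0, 0, 0, 0⟩
  l010 := ⟨0, 0, 0, 0⟩
  l011 := ⟨0, 0, 0, 0⟩
  l020 := ⟨0, 0, 0, 0⟩
  l100 := ⟨0, 0, 0, 0⟩
  l101 := ⟨0, 0, 0, 0⟩
  l102 := ⟨0, 0, 0, 0⟩
  l110 := ⟨0, 0, 0, 0⟩
  l111 := ⟨0, 0, 0, 0⟩
  l120 := ⟨0, 0, 0, 0⟩
  l200 := ⟨0, 0, 0, 0⟩
  l201 := ⟨0, 0, 0, 0⟩
  l210 := ⟨0, 0, 0, 0⟩
  l300 := ⟨0, 0, 0, 0⟩
  l301 := ⟨0, 0, 0, 0⟩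
  l310 := ⟨0, 0, 0, 0⟩
  l400 := ⟨0, 0, 0, 0⟩
  l401 := ⟨0, 0, 0, 0⟩
  l410 := ⟨0, 0, 0, 0⟩
  l500 := ⟨0, 0, 0, 0⟩
  l501 := ⟨0, 0, 0, 0⟩
  l510 := ⟨0, 0, 0, 0⟩
  l600 := ⟨0, 0, 0, 0⟩
  l700 := ⟨0, 0, 0, 0⟩
  l800 := ⟨0, 0, 0, 0⟩
  l900 := ⟨0, 0, 0, 0⟩
  l1000 := ⟨0, 0, 0, 0⟩
  l1100 := ⟨0, 0, 0, 0⟩
  q00 := ⟨0, 0, 0, 0⟩
  q01 := ⟨0, 0, 0, 0⟩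
  q02 := ⟨0, 0, 0, 0⟩
  q03 := ⟨0, 0, 0, 0⟩
  q10 := ⟨0, 0, 0, 0⟩
  q11 := ⟨0, 0, 0, 0⟩
  q12 := ⟨0, 0, 0, 0⟩
  q20 := ⟨0, 0, 0, 0⟩
  q21 := ⟨0, 0, 0, 0⟩
  q30 := ⟨0, 0, 0, 0⟩
  n000 := ⟨0, 0, 0, 0⟩
  n001 := ⟨0, 0, 0, 0⟩
  n002 := ⟨0, 0, 0, 0⟩
  n010 := ⟨0, 0, 0, 0⟩
  n011 := ⟨0, 0, 0, 0⟩
  n020 := ⟨0, 0, 0, 0⟩
  n100 := ⟨0, 0, 0, 0⟩
  n101 := ⟨0, 0, 0, 0⟩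
  n110 := ⟨0, 0, 0, 0⟩
  n200 := ⟨0, 0, 0, 0⟩
  n201 := ⟨0, 0, 0, 0⟩
  n210 := ⟨0, 0, 0, 0⟩
  n300 := ⟨0, 0, 0, 0⟩
  n400 := ⟨0, 0, 0, 0⟩
  n500 := ⟨0, 0, 0, 0⟩
  e00 := ⟨0, 0, 0, 0⟩
  e01 := ⟨0, 0, 0, 0⟩
  e02 := ⟨0, 0, 0, 0⟩
  e03 := ⟨0, 0, 0, 0⟩
  e10 := ⟨0, 0, 0, 0⟩
  e11 := ⟨0, 0, 0, 0⟩
  B1 := 0

def p5 : Pm where
  ec := ⟨13589544960, 0, 0, 0⟩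
  bc := ⟨0, 0, 0, 0⟩
  nn := ⟨6597069766656, 0, 0, 0⟩
  tj := ⟨15393162788864, 0, 0, 0⟩
  ca := ⟨439697276928, 0, 0, 0⟩
  cb := ⟨384936443904, 0, 0, 0⟩
  cc := ⟨0, 0, 0, 0⟩
  ax := ⟨0, 0, 0, 0⟩
  ay := ⟨0, 0, 0, 0⟩
  xa := ⟨0, 0, 0, 0⟩
  C2 := ⟨0, 0, 0, 0⟩
  wr := ⟨0, 1086089854976, 0, 0⟩
  wi := ⟨5872294035456, 0, 0, 0⟩
  w1 := ⟨0, 43946105372672, 0, 0⟩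
  h000 := ⟨0, 5860577792, 0, 0⟩
  h001 := ⟨0, 5132607744, 0, 0⟩
  h002 := ⟨519325568, 0, 0, 0⟩
  h003 := ⟨20026993024, 0, 0, 0⟩
  h010 := ⟨0, 1482749983104, 0, 0⟩
  h011 := ⟨611216923712, 0, 0, 0⟩
  h012 := ⟨0, 0, 0, 0⟩
  h020 := ⟨0, 11531067680896, 0, 0⟩
  h021 := ⟨0, 0, 0, 0⟩
  h030 := ⟨0, 0, 0, 0⟩
  h100 := ⟨0, 1499197376, 0, 0⟩
  h101 := ⟨0, 586344832, 0, 0⟩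
  h102 := ⟨465989824, 0, 0, 0⟩
  h110 := ⟨0, 143301259648, 0, 0⟩
  h111 := ⟨0, 350696148288, 0, 0⟩
  h120 := ⟨0, 0, 0, 0⟩
  h200 := ⟨0, 159055872, 0, 0⟩
  h201 := ⟨109856960, 0, 0, 0⟩
  h202 := ⟨466539584, 0, 0, 0⟩
  h210 := ⟨42295967168, 0, 0, 0⟩
  h211 := ⟨0, 0, 0, 0⟩
  h300 := ⟨199451136, 0, 0, 0⟩
  h301 := ⟨0, 45775936, 0, 0⟩
  h310 := ⟨0, 8537593024, 0, 0⟩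
  h400 := ⟨0, 43028160, 0, 0⟩
  h401 := ⟨5737472, 0, 0, 0⟩
  h410 := ⟨0, 0, 0, 0⟩
  h500 := ⟨5821824, 0, 0, 0⟩
  h501 := ⟨0, 0, 0, 0⟩
  h600 := ⟨0, 421504, 0, 0⟩
  h700 := ⟨15616, 0, 0, 0⟩
  h800 := ⟨0, 0, 0, 0⟩
  m000 := ⟨1097883844608, 0, 0, 0⟩
  m001 := ⟨0, 496631808, 0, 0⟩
  m002 := ⟨1940324352, 0, 0, 0⟩
  m010 := ⟨158331043840, 0, 0, 0⟩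
  m100 := ⟨7853178880, 0, 0, 0⟩
  m101 := ⟨284819456, 0, 0, 0⟩
  m110 := ⟨529517576192, 0, 0, 0⟩
  m200 := ⟨0, 290390016, 0, 0⟩
  m300 := ⟨39387136, 0, 0, 0⟩
  a00 := ⟨53059780608, 0, 0, 0⟩
  a01 := ⟨78897610752, 0, 0, 0⟩
  a02 := ⟨0, 505079660544, 0, 0⟩
  a03 := ⟨1291419123712, 0, 0, 0⟩
  a10 := ⟨0, 729532203008, 0, 0⟩
  a11 := ⟨0, 6627546759168, 0, 0⟩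
  b00 := ⟨47055372288, 0, 0, 0⟩
  b01 := ⟨47478603776, 0, 0, 0⟩
  b02 := ⟨0, 350695587840, 0, 0⟩
  b03 := ⟨962210168832, 0, 0, 0⟩
  b10 := ⟨0, 1114119864320, 0, 0⟩
  b11 := ⟨0, 5946383400960, 0, 0⟩
  t00 := ⟨625698865152, 0, 0, 0⟩
  t01 := ⟨102040600576, 0, 0, 0⟩
  t02 := ⟨0, 2122192453632, 0, 0⟩
  t03 := ⟨5676421414912, 0, 0, 0⟩
  t10 := ⟨0, 4305493164032, 0, 0⟩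
  t11 := ⟨0, 40366594850816, 0, 0⟩
  s00 := ⟨6487841112064, 0, 0, 0⟩
  s01 := ⟨1437100736512, 0, 0, 0⟩
  s02 := ⟨8216573837312, 0, 0, 0⟩
  s03 := ⟨0, 34845000663040, 0, 0⟩
  s10 := ⟨66830949220352, 0, 0, 0⟩
  s11 := ⟨0, 11573728903168, 0, 0⟩
  g00 := ⟨121082684032, 0, 0, 0⟩
  g01 := ⟨0, 20558557056, 0, 0⟩
  g10 := ⟨11328124759168, 0, 0, 0⟩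
  g11 := ⟨0, 0, 0, 0⟩
  f00 := ⟨51628047744, 0, 0, 0⟩
  f01 := ⟨307102560384, 0, 0, 0⟩
  f10 := ⟨22828861750784, 0, 0, 0⟩
  f11 := ⟨0, 0, 0, 0⟩
  l000 := ⟨0, 0, 0, 0⟩
  l001 := ⟨0, 0, 0, 0⟩
  l002 := ⟨0, 0, 0, 0⟩
  l010 := ⟨0, 0, 0, 0⟩
  l011 := ⟨0, 0, 0, 0⟩
  l020 := ⟨0, 0, 0, 0⟩
  l100 := ⟨0, 0, 0, 0⟩
  l101 := ⟨0, 0, 0, 0⟩
  l102 := ⟨0, 0, 0, 0⟩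
  l110 := ⟨0, 0, 0, 0⟩
  l111 := ⟨0, 0, 0, 0⟩
  l120 := ⟨0, 0, 0, 0⟩
  l200 := ⟨0, 0, 0, 0⟩
  l201 := ⟨0, 0, 0, 0⟩
  l210 := ⟨0, 0, 0, 0⟩
  l300 := ⟨0, 0, 0, 0⟩
  l301 := ⟨0, 0, 0, 0⟩
  l310 := ⟨0, 0, 0, 0⟩
  l400 := ⟨0, 0, 0, 0⟩
  l401 := ⟨0, 0, 0, 0⟩
  l410 := ⟨0, 0, 0, 0⟩
  l500 := ⟨0, 0, 0, 0⟩
  l501 := ⟨0, 0, 0, 0⟩
  l510 := ⟨0, 0, 0, 0⟩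
  l600 := ⟨0, 0, 0, 0⟩
  l700 := ⟨0, 0, 0, 0⟩
  l800 := ⟨0, 0, 0, 0⟩
  l900 := ⟨0, 0, 0, 0⟩
  l1000 := ⟨0, 0, 0, 0⟩
  l1100 := ⟨0, 0, 0, 0⟩
  q00 := ⟨0, 0, 0, 0⟩
  q01 := ⟨0, 0, 0, 0⟩
  q02 := ⟨0, 0, 0, 0⟩
  q03 := ⟨0, 0, 0, 0⟩
  q10 := ⟨0, 0, 0, 0⟩
  q11 := ⟨0, 0, 0, 0⟩
  q12 := ⟨0, 0, 0, 0⟩
  q20 := ⟨0, 0, 0, 0⟩
  q21 := ⟨0, 0, 0, 0⟩
  q30 := ⟨0, 0, 0, 0⟩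
  n000 := ⟨0, 0, 0, 0⟩
  n001 := ⟨0, 0, 0, 0⟩
  n002 := ⟨0, 0, 0, 0⟩
  n010 := ⟨0, 0, 0, 0⟩
  n011 := ⟨0, 0, 0, 0⟩
  n020 := ⟨0, 0, 0, 0⟩
  n100 := ⟨0, 0, 0, 0⟩
  n101 := ⟨0, 0, 0, 0⟩
  n110 := ⟨0, 0, 0, 0⟩
  n200 := ⟨0, 0, 0, 0⟩
  n201 := ⟨0, 0, 0, 0⟩
  n210 := ⟨0, 0, 0, 0⟩
  n300 := ⟨0, 0, 0, 0⟩
  n400 := ⟨0, 0, 0, 0⟩
  n500 := ⟨0, 0, 0, 0⟩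
  e00 := ⟨0, 0, 0, 0⟩
  e01 := ⟨0, 0, 0, 0⟩
  e02 := ⟨0, 0, 0, 0⟩
  e03 := ⟨0, 0, 0, 0⟩
  e10 := ⟨0, 0, 0, 0⟩
  e11 := ⟨0, 0, 0, 0⟩
  B1 := 0

def p6 : Pm where
  ec := ⟨13589544960, 0, 0, 0⟩
  bc := ⟨0, 0, 0, 0⟩
  nn := ⟨7696581394432, 0, 0, 0⟩
  tj := ⟨17592186044416, 0, 0, 0⟩
  ca := ⟨384936443904, 0, 0, 0⟩
  cb := ⟨329907175424, 0, 0, 0⟩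
  cc := ⟨0, 0, 0, 0⟩
  ax := ⟨0, 0, 0, 0⟩
  ay := ⟨0, 0, 0, 0⟩
  xa := ⟨0, 0, 0, 0⟩
  C2 := ⟨0, 0, 0, 0⟩
  wr := ⟨0, 1086089854976, 0, 0⟩
  wi := ⟨5872294035456, 0, 0, 0⟩
  w1 := ⟨0, 43946105372672, 0, 0⟩
  h000 := ⟨0, 5860577792, 0, 0⟩
  h001 := ⟨0, 5132607744, 0, 0⟩
  h002 := ⟨519325568, 0, 0, 0⟩
  h003 := ⟨20026993024, 0, 0, 0⟩
  h010 := ⟨0, 1482749983104, 0, 0⟩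
  h011 := ⟨611216923712, 0, 0, 0⟩
  h012 := ⟨0, 0, 0, 0⟩
  h020 := ⟨0, 11531067680896, 0, 0⟩
  h021 := ⟨0, 0, 0, 0⟩
  h030 := ⟨0, 0, 0, 0⟩
  h100 := ⟨0, 1499197376, 0, 0⟩
  h101 := ⟨0, 586344832, 0, 0⟩
  h102 := ⟨465989824, 0, 0, 0⟩
  h110 := ⟨0, 143301259648, 0, 0⟩
  h111 := ⟨0, 350696148288, 0, 0⟩
  h120 := ⟨0, 0, 0, 0⟩
  h200 := ⟨0, 159055872, 0, 0⟩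
  h201 := ⟨109856960, 0, 0, 0⟩
  h202 := ⟨466539584, 0, 0, 0⟩
  h210 := ⟨42295967168, 0, 0, 0⟩
  h211 := ⟨0, 0, 0, 0⟩
  h300 := ⟨199451136, 0, 0, 0⟩
  h301 := ⟨0, 45775936, 0, 0⟩
  h310 := ⟨0, 8537593024, 0, 0⟩
  h400 := ⟨0, 43028160, 0, 0⟩
  h401 := ⟨5737472, 0, 0, 0⟩
  h410 := ⟨0, 0, 0, 0⟩
  h500 := ⟨5821824, 0, 0, 0⟩
  h501 := ⟨0, 0, 0, 0⟩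
  h600 := ⟨0, 421504, 0, 0⟩
  h700 := ⟨15616, 0, 0, 0⟩
  h800 := ⟨0, 0, 0, 0⟩
  m000 := ⟨1098043359232, 0, 0, 0⟩
  m001 := ⟨588054528, 0, 0, 0⟩
  m002 := ⟨0, 1323237376, 0, 0⟩
  m010 := ⟨129680277504, 0, 0, 0⟩
  m100 := ⟨7723548672, 0, 0, 0⟩
  m101 := ⟨270270464, 0, 0, 0⟩
  m110 := ⟨537567035392, 0, 0, 0⟩
  m200 := ⟨0, 260243456, 0, 0⟩
  m300 := ⟨34406400, 0, 0, 0⟩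
  a00 := ⟨47055372288, 0, 0, 0⟩
  a01 := ⟨47478603776, 0, 0, 0⟩
  a02 := ⟨0, 350695587840, 0, 0⟩
  a03 := ⟨962210168832, 0, 0, 0⟩
  a10 := ⟨0, 1114119864320, 0, 0⟩
  a11 := ⟨0, 5946383400960, 0, 0⟩
  b00 := ⟨41870819328, 0, 0, 0⟩
  b01 := ⟨19215810560, 0, 0, 0⟩
  b02 := ⟨0, 190082580480, 0, 0⟩
  b03 := ⟨585599221760, 0, 0, 0⟩
  b10 := ⟨0, 1472250249216, 0, 0⟩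
  b11 := ⟨0, 4942198145024, 0, 0⟩
  t00 := ⟨555124326400, 0, 0, 0⟩
  t01 := ⟨0, 135324762112, 0, 0⟩
  t02 := ⟨0, 836413292544, 0, 0⟩
  t03 := ⟨3322039369728, 0, 0, 0⟩
  t10 := ⟨0, 9343536201728, 0, 0⟩
  t11 := ⟨0, 35021607337984, 0, 0⟩
  s00 := ⟨7113539977216, 0, 0, 0⟩
  s01 := ⟨1539141337088, 0, 0, 0⟩
  s02 := ⟨6094381383680, 0, 0, 0⟩
  s03 := ⟨0, 29168579248128, 0, 0⟩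
  s10 := ⟨62525456056320, 0, 0, 0⟩
  s11 := ⟨0, 51940323753984, 0, 0⟩
  g00 := ⟨121082684032, 0, 0, 0⟩
  g01 := ⟨0, 20558557056, 0, 0⟩
  g10 := ⟨11328124759168, 0, 0, 0⟩
  g11 := ⟨0, 0, 0, 0⟩
  f00 := ⟨51628047744, 0, 0, 0⟩
  f01 := ⟨307102560384, 0, 0, 0⟩
  f10 := ⟨22828861750784, 0, 0, 0⟩
  f11 := ⟨0, 0, 0, 0⟩
  l000 := ⟨0, 0, 0, 0⟩
  l001 := ⟨0, 0, 0, 0⟩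
  l002 := ⟨0, 0, 0, 0⟩
  l010 := ⟨0, 0, 0, 0⟩
  l011 := ⟨0, 0, 0, 0⟩
  l020 := ⟨0, 0, 0, 0⟩
  l100 := ⟨0, 0, 0, 0⟩
  l101 := ⟨0, 0, 0, 0⟩
  l102 := ⟨0, 0, 0, 0⟩
  l110 := ⟨0, 0, 0, 0⟩
  l111 := ⟨0, 0, 0, 0⟩
  l120 := ⟨0, 0, 0, 0⟩
  l200 := ⟨0, 0, 0, 0⟩
  l201 := ⟨0, 0, 0, 0⟩
  l210 := ⟨0, 0, 0, 0⟩
  l300 := ⟨0, 0, 0, 0⟩
  l301 := ⟨0, 0, 0, 0⟩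
  l310 := ⟨0, 0, 0, 0⟩
  l400 := ⟨0, 0, 0, 0⟩
  l401 := ⟨0, 0, 0, 0⟩
  l410 := ⟨0, 0, 0, 0⟩
  l500 := ⟨0, 0, 0, 0⟩
  l501 := ⟨0, 0, 0, 0⟩
  l510 := ⟨0, 0, 0, 0⟩
  l600 := ⟨0, 0, 0, 0⟩
  l700 := ⟨0, 0, 0, 0⟩
  l800 := ⟨0, 0, 0, 0⟩
  l900 := ⟨0, 0, 0, 0⟩
  l1000 := ⟨0, 0, 0, 0⟩
  l1100 := ⟨0, 0, 0, 0⟩
  q00 := ⟨0, 0, 0, 0⟩
  q01 := ⟨0, 0, 0, 0⟩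
  q02 := ⟨0, 0, 0, 0⟩
  q03 := ⟨0, 0, 0, 0⟩
  q10 := ⟨0, 0, 0, 0⟩
  q11 := ⟨0, 0, 0, 0⟩
  q12 := ⟨0, 0, 0, 0⟩
  q20 := ⟨0, 0, 0, 0⟩
  q21 := ⟨0, 0, 0, 0⟩
  q30 := ⟨0, 0, 0, 0⟩
  n000 := ⟨0, 0, 0, 0⟩
  n001 := ⟨0, 0, 0, 0⟩
  n002 := ⟨0, 0, 0, 0⟩
  n010 := ⟨0, 0, 0, 0⟩
  n011 := ⟨0, 0, 0, 0⟩
  n020 := ⟨0, 0, 0, 0⟩
  n100 := ⟨0, 0, 0, 0⟩
  n101 := ⟨0, 0, 0, 0⟩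
  n110 := ⟨0, 0, 0, 0⟩
  n200 := ⟨0, 0, 0, 0⟩
  n201 := ⟨0, 0, 0, 0⟩
  n210 := ⟨0, 0, 0, 0⟩
  n300 := ⟨0, 0, 0, 0⟩
  n400 := ⟨0, 0, 0, 0⟩
  n500 := ⟨0, 0, 0, 0⟩
  e00 := ⟨0, 0, 0, 0⟩
  e01 := ⟨0, 0, 0, 0⟩
  e02 := ⟨0, 0, 0, 0⟩
  e03 := ⟨0, 0, 0, 0⟩
  e10 := ⟨0, 0, 0, 0⟩
  e11 := ⟨0, 0, 0, 0⟩
  B1 := 0

def p7 : Pm where
  ec := ⟨13589544960, 0, 0, 0⟩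
  bc := ⟨0, 0, 0, 0⟩
  nn := ⟨8796093022208, 0, 0, 0⟩
  tj := ⟨19791209299968, 0, 0, 0⟩
  ca := ⟨329907175424, 0, 0, 0⟩
  cb := ⟨274877906944, 0, 0, 0⟩
  cc := ⟨0, 0, 0, 0⟩
  ax := ⟨0, 0, 0, 0⟩
  ay := ⟨0, 0, 0, 0⟩
  xa := ⟨0, 0, 0, 0⟩
  C2 := ⟨0, 0, 0, 0⟩
  wr := ⟨0, 1086089854976, 0, 0⟩
  wi := ⟨5872294035456, 0, 0, 0⟩
  w1 := ⟨0, 43946105372672, 0, 0⟩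
  h000 := ⟨0, 5860577792, 0, 0⟩
  h001 := ⟨0, 5132607744, 0, 0⟩
  h002 := ⟨519325568, 0, 0, 0⟩
  h003 := ⟨20026993024, 0, 0, 0⟩
  h010 := ⟨0, 1482749983104, 0, 0⟩
  h011 := ⟨611216923712, 0, 0, 0⟩
  h012 := ⟨0, 0, 0, 0⟩
  h020 := ⟨0, 11531067680896, 0, 0⟩
  h021 := ⟨0, 0, 0, 0⟩
  h030 := ⟨0, 0, 0, 0⟩
  h100 := ⟨0, 1499197376, 0, 0⟩
  h101 := ⟨0, 586344832, 0, 0⟩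
  h102 := ⟨465989824, 0, 0, 0⟩
  h110 := ⟨0, 143301259648, 0, 0⟩
  h111 := ⟨0, 350696148288, 0, 0⟩
  h120 := ⟨0, 0, 0, 0⟩
  h200 := ⟨0, 159055872, 0, 0⟩
  h201 := ⟨109856960, 0, 0, 0⟩
  h202 := ⟨466539584, 0, 0, 0⟩
  h210 := ⟨42295967168, 0, 0, 0⟩
  h211 := ⟨0, 0, 0, 0⟩
  h300 := ⟨199451136, 0, 0, 0⟩
  h301 := ⟨0, 45775936, 0, 0⟩
  h310 := ⟨0, 8537593024, 0, 0⟩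
  h400 := ⟨0, 43028160, 0, 0⟩
  h401 := ⟨5737472, 0, 0, 0⟩
  h410 := ⟨0, 0, 0, 0⟩
  h500 := ⟨5821824, 0, 0, 0⟩
  h501 := ⟨0, 0, 0, 0⟩
  h600 := ⟨0, 421504, 0, 0⟩
  h700 := ⟨15616, 0, 0, 0⟩
  h800 := ⟨0, 0, 0, 0⟩
  m000 := ⟨1098311073792, 0, 0, 0⟩
  m001 := ⟨468647936, 0, 0, 0⟩
  m002 := ⟨0, 913309696, 0, 0⟩
  m010 := ⟨133569380352, 0, 0, 0⟩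
  m100 := ⟨7590445056, 0, 0, 0⟩
  m101 := ⟨228655104, 0, 0, 0⟩
  m110 := ⟨542656823296, 0, 0, 0⟩
  m200 := ⟨0, 226820096, 0, 0⟩
  m300 := ⟨29229056, 0, 0, 0⟩
  a00 := ⟨41870819328, 0, 0, 0⟩
  a01 := ⟨19215810560, 0, 0, 0⟩
  a02 := ⟨0, 190082580480, 0, 0⟩
  a03 := ⟨585599221760, 0, 0, 0⟩
  a10 := ⟨0, 1472250249216, 0, 0⟩
  a11 := ⟨0, 4942198145024, 0, 0⟩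
  b00 := ⟨37603311616, 0, 0, 0⟩
  b01 := ⟨0, 6749028352, 0, 0⟩
  b02 := ⟨0, 56583913472, 0, 0⟩
  b03 := ⟨306307203072, 0, 0, 0⟩
  b10 := ⟨0, 1880574459904, 0, 0⟩
  b11 := ⟨0, 3347281477632, 0, 0⟩
  t00 := ⟨494245380096, 0, 0, 0⟩
  t01 := ⟨0, 361572007936, 0, 0⟩
  t02 := ⟨695756324864, 0, 0, 0⟩
  t03 := ⟨0, 136155299840, 0, 0⟩
  t10 := ⟨0, 14004003471360, 0, 0⟩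
  t11 := ⟨0, 25591029563392, 0, 0⟩
  s00 := ⟨7668664303616, 0, 0, 0⟩
  s01 := ⟨1403816574976, 0, 0, 0⟩
  s02 := ⟨5257968091136, 0, 0, 0⟩
  s03 := ⟨0, 25846539878400, 0, 0⟩
  s10 := ⟨53181919854592, 0, 0, 0⟩
  s11 := ⟨0, 86961931091968, 0, 0⟩
  g00 := ⟨121082684032, 0, 0, 0⟩
  g01 := ⟨0, 20558557056, 0, 0⟩
  g10 := ⟨11328124759168, 0, 0, 0⟩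
  g11 := ⟨0, 0, 0, 0⟩
  f00 := ⟨51628047744, 0, 0, 0⟩
  f01 := ⟨307102560384, 0, 0, 0⟩
  f10 := ⟨22828861750784, 0, 0, 0⟩
  f11 := ⟨0, 0, 0, 0⟩
  l000 := ⟨0, 0, 0, 0⟩
  l001 := ⟨0, 0, 0, 0⟩
  l002 := ⟨0, 0, 0, 0⟩
  l010 := ⟨0, 0, 0, 0⟩
  l011 := ⟨0, 0, 0, 0⟩
  l020 := ⟨0, 0, 0, 0⟩
  l100 := ⟨0, 0, 0, 0⟩
  l101 := ⟨0, 0, 0, 0⟩
  l102 := ⟨0, 0, 0, 0⟩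
  l110 := ⟨0, 0, 0, 0⟩
  l111 := ⟨0, 0, 0, 0⟩
  l120 := ⟨0, 0, 0, 0⟩
  l200 := ⟨0, 0, 0, 0⟩
  l201 := ⟨0, 0, 0, 0⟩
  l210 := ⟨0, 0, 0, 0⟩
  l300 := ⟨0, 0, 0, 0⟩
  l301 := ⟨0, 0, 0, 0⟩
  l310 := ⟨0, 0, 0, 0⟩
  l400 := ⟨0, 0, 0, 0⟩
  l401 := ⟨0, 0, 0, 0⟩
  l410 := ⟨0, 0, 0, 0⟩
  l500 := ⟨0, 0, 0, 0⟩
  l501 := ⟨0, 0, 0, 0⟩
  l510 := ⟨0, 0, 0, 0⟩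
  l600 := ⟨0, 0, 0, 0⟩
  l700 := ⟨0, 0, 0, 0⟩
  l800 := ⟨0, 0, 0, 0⟩
  l900 := ⟨0, 0, 0, 0⟩
  l1000 := ⟨0, 0, 0, 0⟩
  l1100 := ⟨0, 0, 0, 0⟩
  q00 := ⟨0, 0, 0, 0⟩
  q01 := ⟨0, 0, 0, 0⟩
  q02 := ⟨0, 0, 0, 0⟩
  q03 := ⟨0, 0, 0, 0⟩
  q10 := ⟨0, 0, 0, 0⟩
  q11 := ⟨0, 0, 0, 0⟩
  q12 := ⟨0, 0, 0, 0⟩
  q20 := ⟨0, 0, 0, 0⟩
  q21 := ⟨0, 0, 0, 0⟩
  q30 := ⟨0, 0, 0, 0⟩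
  n000 := ⟨0, 0, 0, 0⟩
  n001 := ⟨0, 0, 0, 0⟩
  n002 := ⟨0, 0, 0, 0⟩
  n010 := ⟨0, 0, 0, 0⟩
  n011 := ⟨0, 0, 0, 0⟩
  n020 := ⟨0, 0, 0, 0⟩
  n100 := ⟨0, 0, 0, 0⟩
  n101 := ⟨0, 0, 0, 0⟩
  n110 := ⟨0, 0, 0, 0⟩
  n200 := ⟨0, 0, 0, 0⟩
  n201 := ⟨0, 0, 0, 0⟩
  n210 := ⟨0, 0, 0, 0⟩
  n300 := ⟨0, 0, 0, 0⟩
  n400 := ⟨0, 0, 0, 0⟩
  n500 := ⟨0, 0, 0, 0⟩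
  e00 := ⟨0, 0, 0, 0⟩
  e01 := ⟨0, 0, 0, 0⟩
  e02 := ⟨0, 0, 0, 0⟩
  e03 := ⟨0, 0, 0, 0⟩
  e10 := ⟨0, 0, 0, 0⟩
  e11 := ⟨0, 0, 0, 0⟩
  B1 := 0

def p8 : Pm where
  ec := ⟨13589544960, 0, 0, 0⟩
  bc := ⟨0, 0, 0, 0⟩
  nn := ⟨9895604649984, 0, 0, 0⟩
  tj := ⟨21990232555520, 0, 0, 0⟩
  ca := ⟨274877906944, 0, 0, 0⟩
  cb := ⟨0, 0, 0, 0⟩
  cc := ⟨0, 0, 0, 0⟩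
  ax := ⟨0, 0, 0, 0⟩
  ay := ⟨219902325760, 0, 0, 0⟩
  xa := ⟨6597069766656, 0, 0, 0⟩
  C2 := ⟨1437822898176, 0, 0, 0⟩
  wr := ⟨0, 1086089854976, 0, 0⟩
  wi := ⟨5872294035456, 0, 0, 0⟩
  w1 := ⟨0, 43946105372672, 0, 0⟩
  h000 := ⟨0, 5860577792, 0, 0⟩
  h001 := ⟨0, 5132607744, 0, 0⟩
  h002 := ⟨519325568, 0, 0, 0⟩
  h003 := ⟨20026993024, 0, 0, 0⟩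
  h010 := ⟨0, 1482749983104, 0, 0⟩
  h011 := ⟨611216923712, 0, 0, 0⟩
  h012 := ⟨0, 0, 0, 0⟩
  h020 := ⟨0, 11531067680896, 0, 0⟩
  h021 := ⟨0, 0, 0, 0⟩
  h030 := ⟨0, 0, 0, 0⟩
  h100 := ⟨0, 1499197376, 0, 0⟩
  h101 := ⟨0, 586344832, 0, 0⟩
  h102 := ⟨465989824, 0, 0, 0⟩
  h110 := ⟨0, 143301259648, 0, 0⟩
  h111 := ⟨0, 350696148288, 0, 0⟩
  h120 := ⟨0, 0, 0, 0⟩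
  h200 := ⟨0, 159055872, 0, 0⟩
  h201 := ⟨109856960, 0, 0, 0⟩
  h202 := ⟨466539584, 0, 0, 0⟩
  h210 := ⟨42295967168, 0, 0, 0⟩
  h211 := ⟨0, 0, 0, 0⟩
  h300 := ⟨199451136, 0, 0, 0⟩
  h301 := ⟨0, 45775936, 0, 0⟩
  h310 := ⟨0, 8537593024, 0, 0⟩
  h400 := ⟨0, 43028160, 0, 0⟩
  h401 := ⟨5737472, 0, 0, 0⟩
  h410 := ⟨0, 0, 0, 0⟩
  h500 := ⟨5821824, 0, 0, 0⟩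
  h501 := ⟨0, 0, 0, 0⟩
  h600 := ⟨0, 421504, 0, 0⟩
  h700 := ⟨15616, 0, 0, 0⟩
  h800 := ⟨0, 0, 0, 0⟩
  m000 := ⟨1099124047872, 0, 0, 0⟩
  m001 := ⟨601882624, 0, 0, 0⟩
  m002 := ⟨0, 1901002752, 0, 0⟩
  m010 := ⟨218665844736, 0, 0, 0⟩
  m100 := ⟨7224688640, 0, 0, 0⟩
  m101 := ⟨237961216, 0, 0, 0⟩
  m110 := ⟨530776522752, 0, 0, 0⟩
  m200 := ⟨0, 143392768, 0, 0⟩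
  m300 := ⟨20774912, 0, 0, 0⟩
  a00 := ⟨37603311616, 0, 0, 0⟩
  a01 := ⟨0, 6749028352, 0, 0⟩
  a02 := ⟨0, 56583913472, 0, 0⟩
  a03 := ⟨306307203072, 0, 0, 0⟩
  a10 := ⟨0, 1880574459904, 0, 0⟩
  a11 := ⟨0, 3347281477632, 0, 0⟩
  b00 := ⟨0, 0, 0, 0⟩
  b01 := ⟨0, 0, 0, 0⟩
  b02 := ⟨0, 0, 0, 0⟩
  b03 := ⟨0, 0, 0, 0⟩
  b10 := ⟨0, 0, 0, 0⟩
  b11 := ⟨0, 0, 0, 0⟩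
  t00 := ⟨444047687680, 0, 0, 0⟩
  t01 := ⟨0, 582547275776, 0, 0⟩
  t02 := ⟨2006051323904, 0, 0, 0⟩
  t03 := ⟨0, 2725085511680, 0, 0⟩
  t10 := ⟨0, 19155985104896, 0, 0⟩
  t11 := ⟨0, 9504584761344, 0, 0⟩
  s00 := ⟨8162909683712, 0, 0, 0⟩
  s01 := ⟨1042244567040, 0, 0, 0⟩
  s02 := ⟨5953724416000, 0, 0, 0⟩
  s03 := ⟨0, 25982695178240, 0, 0⟩
  s10 := ⟨39177916383232, 0, 0, 0⟩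
  s11 := ⟨0, 112552960655360, 0, 0⟩
  g00 := ⟨121082684032, 0, 0, 0⟩
  g01 := ⟨0, 20558557056, 0, 0⟩
  g10 := ⟨11328124759168, 0, 0, 0⟩
  g11 := ⟨0, 0, 0, 0⟩
  f00 := ⟨51628047744, 0, 0, 0⟩
  f01 := ⟨307102560384, 0, 0, 0⟩
  f10 := ⟨22828861750784, 0, 0, 0⟩
  f11 := ⟨0, 0, 0, 0⟩
  l000 := ⟨0, 0, 0, 0⟩
  l001 := ⟨0, 0, 0, 0⟩
  l002 := ⟨0, 0, 0, 0⟩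
  l010 := ⟨0, 0, 0, 0⟩
  l011 := ⟨0, 0, 0, 0⟩
  l020 := ⟨0, 0, 0, 0⟩
  l100 := ⟨0, 0, 0, 0⟩
  l101 := ⟨0, 0, 0, 0⟩
  l102 := ⟨0, 0, 0, 0⟩
  l110 := ⟨0, 0, 0, 0⟩
  l111 := ⟨0, 0, 0, 0⟩
  l120 := ⟨0, 0, 0, 0⟩
  l200 := ⟨0, 0, 0, 0⟩
  l201 := ⟨0, 0, 0, 0⟩
  l210 := ⟨0, 0, 0, 0⟩
  l300 := ⟨0, 0, 0, 0⟩
  l301 := ⟨0, 0, 0, 0⟩
  l310 := ⟨0, 0, 0, 0⟩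
  l400 := ⟨0, 0, 0, 0⟩
  l401 := ⟨0, 0, 0, 0⟩
  l410 := ⟨0, 0, 0, 0⟩
  l500 := ⟨0, 0, 0, 0⟩
  l501 := ⟨0, 0, 0, 0⟩
  l510 := ⟨0, 0, 0, 0⟩
  l600 := ⟨0, 0, 0, 0⟩
  l700 := ⟨0, 0, 0, 0⟩
  l800 := ⟨0, 0, 0, 0⟩
  l900 := ⟨0, 0, 0, 0⟩
  l1000 := ⟨0, 0, 0, 0⟩
  l1100 := ⟨0, 0, 0, 0⟩
  q00 := ⟨0, 0, 0, 0⟩
  q01 := ⟨0, 0, 0, 0⟩
  q02 := ⟨0, 0, 0, 0⟩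
  q03 := ⟨0, 0, 0, 0⟩
  q10 := ⟨0, 0, 0, 0⟩
  q11 := ⟨0, 0, 0, 0⟩
  q12 := ⟨0, 0, 0, 0⟩
  q20 := ⟨0, 0, 0, 0⟩
  q21 := ⟨0, 0, 0, 0⟩
  q30 := ⟨0, 0, 0, 0⟩
  n000 := ⟨0, 0, 0, 0⟩
  n001 := ⟨0, 0, 0, 0⟩
  n002 := ⟨0, 0, 0, 0⟩
  n010 := ⟨0, 0, 0, 0⟩
  n011 := ⟨0, 0, 0, 0⟩
  n020 := ⟨0, 0, 0, 0⟩
  n100 := ⟨0, 0, 0, 0⟩
  n101 := ⟨0, 0, 0, 0⟩
  n110 := ⟨0, 0, 0, 0⟩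
  n200 := ⟨0, 0, 0, 0⟩
  n201 := ⟨0, 0, 0, 0⟩
  n210 := ⟨0, 0, 0, 0⟩
  n300 := ⟨0, 0, 0, 0⟩
  n400 := ⟨0, 0, 0, 0⟩
  n500 := ⟨0, 0, 0, 0⟩
  e00 := ⟨0, 0, 0, 0⟩
  e01 := ⟨0, 0, 0, 0⟩
  e02 := ⟨0, 0, 0, 0⟩
  e03 := ⟨0, 0, 0, 0⟩
  e10 := ⟨0, 0, 0, 0⟩
  e11 := ⟨0, 0, 0, 0⟩
  B1 := 1649267441664

def pF : Pm where
  ec := ⟨13589544960, 0, 0, 0⟩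
  bc := ⟨0, 0, 0, 0⟩
  nn := ⟨0, 0, 0, 0⟩
  tj := ⟨2199023255552, 0, 0, 0⟩
  ca := ⟨1099511627776, 0, 0, 0⟩
  cb := ⟨0, 0, 0, 0⟩
  cc := ⟨879662989312, 0, 0, 0⟩
  ax := ⟨0, 0, 0, 0⟩
  ay := ⟨0, 0, 0, 0⟩
  xa := ⟨0, 0, 0, 0⟩
  C2 := ⟨0, 0, 0, 0⟩
  wr := ⟨0, 1086089854976, 0, 0⟩
  wi := ⟨5872294035456, 0, 0, 0⟩
  w1 := ⟨0, 43946105372672, 0, 0⟩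
  h000 := ⟨0, 5860577792, 0, 0⟩
  h001 := ⟨0, 5132607744, 0, 0⟩
  h002 := ⟨519325568, 0, 0, 0⟩
  h003 := ⟨20026993024, 0, 0, 0⟩
  h010 := ⟨0, 1482749983104, 0, 0⟩
  h011 := ⟨611216923712, 0, 0, 0⟩
  h012 := ⟨0, 0, 0, 0⟩
  h020 := ⟨0, 11531067680896, 0, 0⟩
  h021 := ⟨0, 0, 0, 0⟩
  h030 := ⟨0, 0, 0, 0⟩
  h100 := ⟨0, 1499197376, 0, 0⟩
  h101 := ⟨0, 586344832, 0, 0⟩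
  h102 := ⟨465989824, 0, 0, 0⟩
  h110 := ⟨0, 143301259648, 0, 0⟩
  h111 := ⟨0, 350696148288, 0, 0⟩
  h120 := ⟨0, 0, 0, 0⟩
  h200 := ⟨0, 159055872, 0, 0⟩
  h201 := ⟨109856960, 0, 0, 0⟩
  h202 := ⟨466539584, 0, 0, 0⟩
  h210 := ⟨42295967168, 0, 0, 0⟩
  h211 := ⟨0, 0, 0, 0⟩
  h300 := ⟨199451136, 0, 0, 0⟩
  h301 := ⟨0, 45775936, 0, 0⟩
  h310 := ⟨0, 8537593024, 0, 0⟩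
  h400 := ⟨0, 43028160, 0, 0⟩
  h401 := ⟨5737472, 0, 0, 0⟩
  h410 := ⟨0, 0, 0, 0⟩
  h500 := ⟨5821824, 0, 0, 0⟩
  h501 := ⟨0, 0, 0, 0⟩
  h600 := ⟨0, 421504, 0, 0⟩
  h700 := ⟨15616, 0, 0, 0⟩
  h800 := ⟨0, 0, 0, 0⟩
  m000 := ⟨0, 0, 0, 0⟩
  m001 := ⟨0, 0, 0, 0⟩
  m002 := ⟨0, 0, 0, 0⟩
  m010 := ⟨0, 0, 0, 0⟩
  m100 := ⟨0, 0, 0, 0⟩
  m101 := ⟨0, 0, 0, 0⟩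
  m110 := ⟨0, 0, 0, 0⟩
  m200 := ⟨0, 0, 0, 0⟩
  m300 := ⟨0, 0, 0, 0⟩
  a00 := ⟨111861891072, 0, 0, 0⟩
  a01 := ⟨245436776448, 0, 0, 0⟩
  a02 := ⟨0, 34831138816, 0, 0⟩
  a03 := ⟨0, 673359986688, 0, 0⟩
  a10 := ⟨1610718445568, 0, 0, 0⟩
  a11 := ⟨0, 747471765504, 0, 0⟩
  b00 := ⟨0, 0, 0, 0⟩
  b01 := ⟨0, 0, 0, 0⟩
  b02 := ⟨0, 0, 0, 0⟩
  b03 := ⟨0, 0, 0, 0⟩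
  b10 := ⟨0, 0, 0, 0⟩
  b11 := ⟨0, 0, 0, 0⟩
  t00 := ⟨1662559584256, 0, 0, 0⟩
  t01 := ⟨5005836288, 0, 0, 0⟩
  t02 := ⟨10044492218368, 0, 0, 0⟩
  t03 := ⟨0, 24331573657600, 0, 0⟩
  t10 := ⟨2278447775744, 0, 0, 0⟩
  t11 := ⟨82994505973760, 0, 0, 0⟩
  s00 := ⟨0, 0, 0, 0⟩
  s01 := ⟨0, 0, 0, 0⟩
  s02 := ⟨0, 0, 0, 0⟩
  s03 := ⟨0, 0, 0, 0⟩
  s10 := ⟨0, 0, 0, 0⟩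
  s11 := ⟨0, 0, 0, 0⟩
  g00 := ⟨121082684032, 0, 0, 0⟩
  g01 := ⟨0, 20558557056, 0, 0⟩
  g10 := ⟨11328124759168, 0, 0, 0⟩
  g11 := ⟨0, 0, 0, 0⟩
  f00 := ⟨51628047744, 0, 0, 0⟩
  f01 := ⟨307102560384, 0, 0, 0⟩
  f10 := ⟨22828861750784, 0, 0, 0⟩
  f11 := ⟨0, 0, 0, 0⟩
  l000 := ⟨3447494736576, 0, 0, 0⟩
  l001 := ⟨0, 6952725312, 0, 0⟩
  l002 := ⟨0, 0, 0, 0⟩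
  l010 := ⟨2109173341760, 0, 0, 0⟩
  l011 := ⟨0, 0, 0, 0⟩
  l020 := ⟨0, 0, 0, 0⟩
  l100 := ⟨1678682854208, 0, 0, 0⟩
  l101 := ⟨54070294336, 0, 0, 0⟩
  l102 := ⟨0, 0, 0, 0⟩
  l110 := ⟨0, 33912866629952, 0, 0⟩
  l111 := ⟨0, 0, 0, 0⟩
  l120 := ⟨0, 0, 0, 0⟩
  l200 := ⟨59238085696, 0, 0, 0⟩
  l201 := ⟨0, 56188942272, 0, 0⟩
  l210 := ⟨58483778066048, 0, 0, 0⟩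
  l300 := ⟨3116801227008, 0, 0, 0⟩
  l301 := ⟨127449537152, 0, 0, 0⟩
  l310 := ⟨0, 195561442712512, 0, 0⟩
  l400 := ⟨0, 10031747454912, 0, 0⟩
  l401 := ⟨0, 37045265600, 0, 0⟩
  l410 := ⟨204744648292736, 0, 0, 0⟩
  l500 := ⟨26884566331520, 0, 0, 0⟩
  l501 := ⟨86632501888, 0, 0, 0⟩
  l510 := ⟨0, 171664488702976, 0, 0⟩
  l600 := ⟨0, 55315370891456, 0, 0⟩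
  l700 := ⟨86989641450560, 0, 0, 0⟩
  l800 := ⟨0, 105758598917632, 0, 0⟩
  l900 := ⟨91807970894784, 0, 0, 0⟩
  l1000 := ⟨0, 53751780075328, 0, 0⟩
  l1100 := ⟨16761203923584, 0, 0, 0⟩
  q00 := ⟨9518256832, 0, 0, 0⟩
  q01 := ⟨30774271040, 0, 0, 0⟩
  q02 := ⟨7638697088, 0, 0, 0⟩
  q03 := ⟨0, 0, 0, 0⟩
  q10 := ⟨486065179584, 0, 0, 0⟩
  q11 := ⟨0, 4325937567360, 0, 0⟩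
  q12 := ⟨0, 0, 0, 0⟩
  q20 := ⟨0, 853171517665664, 0, 0⟩
  q21 := ⟨0, 0, 0, 0⟩
  q30 := ⟨0, 0, 0, 0⟩
  n000 := ⟨1093399609344, 0, 0, 0⟩
  n001 := ⟨0, 4980736, 0, 0⟩
  n002 := ⟨18623823872, 0, 0, 0⟩
  n010 := ⟨405470576640, 0, 0, 0⟩
  n011 := ⟨1890831302656, 0, 0, 0⟩
  n020 := ⟨147953305976832, 0, 0, 0⟩
  n100 := ⟨59155087360, 0, 0, 0⟩
  n101 := ⟨4463591424, 0, 0, 0⟩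
  n110 := ⟨2563955032064, 0, 0, 0⟩
  n200 := ⟨0, 113585291264, 0, 0⟩
  n201 := ⟨6043598848, 0, 0, 0⟩
  n210 := ⟨7046415581184, 0, 0, 0⟩
  n300 := ⟨343152656384, 0, 0, 0⟩
  n400 := ⟨0, 418982526976, 0, 0⟩
  n500 := ⟨169942646784, 0, 0, 0⟩
  e00 := ⟨189928243200, 0, 0, 0⟩
  e01 := ⟨514986213376, 0, 0, 0⟩
  e02 := ⟨0, 400148987904, 0, 0⟩
  e03 := ⟨3718647513088, 0, 0, 0⟩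
  e10 := ⟨3347251462144, 0, 0, 0⟩
  e11 := ⟨4509686497280, 0, 0, 0⟩
  B1 := 0

end Pool.Agent.helper12.K68
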